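import Mathlib

set_option autoImplicit false

namespace Pool.Agent.H286Z.Tile
open Set Function

/-- The translate of `T` through `v` laid along the axis `i`. -/
def Copy {κ : Type} [DecidableEq κ] (T : Finset ℤ) (v : κ → ℤ) (i : κ) : Set (κ → ℤ) :=
  (fun a : ℤ => v + a • Pi.single i (1 : ℤ)) '' (T : Set ℤ)

/-- `X` is a disjoint union of copies of `T`. -/
def Tiled {κ : Type} [DecidableEq κ] (T : Finset ℤ) (X : Set (κ → ℤ)) : Prop :=
  ∃ c : (κ → ℤ) → Set (κ → ℤ), ∀ x ∈ X,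
    (∃ v i, c x = Copy T v i) ∧ x ∈ c x ∧ c x ⊆ X ∧ ∀ y ∈ c x, c y = c x

open Classical in
noncomputable def cs {κ : Type} [DecidableEq κ] (T : Finset ℤ) (X : Set (κ → ℤ)) :
    (κ → ℤ) → Set (κ → ℤ) := if h : Tiled T X then h.choose else fun _ => ∅

lemma cs_spec {κ : Type} [DecidableEq κ] {T : Finset ℤ} {X : Set (κ → ℤ)} (h : Tiled T X) :
    ∀ x ∈ X, (∃ v i, cs T X x = Copy T v i) ∧ x ∈ cs T X x ∧ cs T X x ⊆ X ∧
      ∀ y ∈ cs T X x, cs T X y = cs T X x := by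
  unfold cs
  rw [dif_pos h]
  exact h.choose_spec

lemma tiled_label {κ L : Type} [DecidableEq κ] {T : Finset ℤ} {X : Set (κ → ℤ)}
    (lab : (κ → ℤ) → L) (h : ∀ l, Tiled T {x | x ∈ X ∧ lab x = l}) : Tiled T X := by
  refine ⟨fun x => cs T {y | y ∈ X ∧ lab y = lab x} x, fun x hx => ?_⟩
  obtain ⟨h1, h2, h3, h4⟩ := cs_spec (h (lab x)) x ⟨hx, rfl⟩
  refine ⟨h1, h2, fun y hy => (h3 hy).1, fun y hy => ?_⟩
  have : lab y = lab x := (h3 hy).2
  simp only [this]
  exact h4 y hy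

lemma tiled_sec {κ κ' : Type} [DecidableEq κ] [DecidableEq κ'] {T : Finset ℤ}
    (e : κ → κ') (he : Injective e) {X : Set (κ' → ℤ)}
    (h : ∀ w, Tiled T {u | extend e u w ∈ X}) : Tiled T X := by
  have f1 : ∀ x : κ' → ℤ, extend e (x ∘ e) x = x := by
    intro x; funext k
    by_cases hk : ∃ j, e j = k
    · obtain ⟨j, rfl⟩ := hk; rw [he.extend_apply]; rfl
    · rw [extend_apply' _ _ _ hk]
  have f2 : ∀ (u u' : κ → ℤ) (x : κ' → ℤ), extend e u (extend e u' x) = extend e u x := by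
    intro u u' x; funext k
    by_cases hk : ∃ j, e j = k
    · obtain ⟨j, rfl⟩ := hk; rw [he.extend_apply, he.extend_apply]
    · rw [extend_apply' _ _ _ hk, extend_apply' _ _ _ hk, extend_apply' _ _ _ hk]
  have f3 : ∀ (u : κ → ℤ) (x : κ' → ℤ), extend e u x ∘ e = u := by
    intro u x; funext j; simp [he.extend_apply]
  have f4 : ∀ (v : κ → ℤ) (a : ℤ) (i : κ) (x : κ' → ℤ),
      extend e (v + a • Pi.single i (1 : ℤ)) x = extend e v x + a • Pi.single (e i) (1 : ℤ) := by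
    intro v a i x; funext k
    by_cases hk : ∃ j, e j = k
    · obtain ⟨j, rfl⟩ := hk
      simp only [he.extend_apply, Pi.add_apply, Pi.smul_apply, Pi.single_apply, he.eq_iff]
    · have : k ≠ e i := fun h' => hk ⟨i, h'.symm⟩
      simp only [Pi.add_apply, Pi.smul_apply, extend_apply' _ _ _ hk, Pi.single_apply, if_neg this,
        smul_zero, add_zero]
  refine ⟨fun x => (fun u => extend e u x) '' cs T {u | extend e u x ∈ X} (x ∘ e), fun x hx => ?_⟩
  obtain ⟨⟨v, i, h1⟩, h2, h3, h4⟩ := cs_spec (h x) (x ∘ e) (by simpa [f1] using hx)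
  refine ⟨⟨extend e v x, e i, ?_⟩, ⟨_, h2, f1 x⟩, ?_, ?_⟩
  · simp only [h1, Copy, image_image, f4]
  · rintro _ ⟨u, hu, rfl⟩; exact h3 hu
  · rintro _ ⟨u, hu, rfl⟩
    simp only [f2, f3, h4 u hu]

/-- A uniform model: a quotient of `ℤ^κ` whose good sets are those with tiled preimage. -/
def Mod (t : ℕ) (Y : Type) (G : Set Y → Prop) : Prop :=
  ∃ (κ : Type) (_ : Fintype κ) (_ : DecidableEq κ)
    (π : {T : Finset ℤ // T.card = t} → (κ → ℤ) → Y),
    ∀ X, G X ↔ ∀ T, Tiled T.1 (π T ⁻¹' X)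

variable {t : ℕ} {Y Y' : Type} {G : Set Y → Prop} {G' : Set Y' → Prop}

lemma Mod.empty (h : Mod t Y G) : G ∅ := by
  obtain ⟨κ, _, _, π, h⟩ := h
  rw [h]
  intro T
  exact ⟨fun _ => ∅, fun x hx => hx.elim⟩

lemma Mod.label (h : Mod t Y G) {L : Type} (lab : Y → L) {X : Set Y}
    (hX : ∀ l, G {x | x ∈ X ∧ lab x = l}) : G X := by
  obtain ⟨κ, _, _, π, h⟩ := h
  rw [h]
  intro T
  exact tiled_label (lab ∘ π T) fun l => (h _).1 (hX l) T

lemma Mod.congr (X X' : Set Y) (hX : G X) (e : ∀ y, y ∈ X' ↔ y ∈ X) : G X' := by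
  have : X' = X := Set.ext e
  rwa [this]

lemma Mod.split (h : Mod t Y G) {X : Set Y} (A : Set Y)
    (h1 : G {x | x ∈ X ∧ x ∈ A}) (h2 : G {x | x ∈ X ∧ x ∉ A}) : G X := by
  refine h.label (fun x => x ∈ A) fun l => ?_
  by_cases hl : l
  · exact Mod.congr _ _ h1 (by simp [hl])
  · exact Mod.congr _ _ h2 (by simp [hl])

lemma Mod.map (h : Mod t Y G) (f : Y → Y') : Mod t Y' (fun X => G (f ⁻¹' X)) := by
  obtain ⟨κ, _, _, π, h⟩ := h
  exact ⟨κ, inferInstance, inferInstance, fun T => f ∘ π T, fun X => h _⟩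

lemma Mod.prod (h : Mod t Y G) (h' : Mod t Y' G') : ∃ H : Set (Y × Y') → Prop,
    Mod t (Y × Y') H ∧ (∀ X, (∀ y', G {y | (y, y') ∈ X}) → H X) ∧
      (∀ X, (∀ y, G' {y' | (y, y') ∈ X}) → H X) := by
  obtain ⟨κ, _, _, π, h⟩ := h
  obtain ⟨κ', _, _, π', h'⟩ := h'
  refine ⟨fun X => ∀ T, Tiled T.1
      ((fun w : κ ⊕ κ' → ℤ => (π T (w ∘ Sum.inl), π' T (w ∘ Sum.inr))) ⁻¹' X),
    ⟨κ ⊕ κ', inferInstance, inferInstance, _, fun X => Iff.rfl⟩, ?_, ?_⟩
  · intro X hX T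
    refine tiled_sec Sum.inl Sum.inl_injective fun w => ?_
    have := (h _).1 (hX (π' T (w ∘ Sum.inr))) T
    convert this using 1
    ext u
    have e1 : extend Sum.inl u w ∘ Sum.inl = u := by
      funext j; simp [Sum.inl_injective.extend_apply]
    have e2 : extend Sum.inl u w ∘ Sum.inr = w ∘ Sum.inr := by
      funext j; simp only [comp_apply]; rw [extend_apply']; simp
    simp [e1, e2]
  · intro X hX T
    refine tiled_sec Sum.inr Sum.inr_injective fun w => ?_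
    have := (h' _).1 (hX (π T (w ∘ Sum.inl))) T
    convert this using 1
    ext u
    have e1 : extend Sum.inr u w ∘ Sum.inr = u := by
      funext j; simp [Sum.inr_injective.extend_apply]
    have e2 : extend Sum.inr u w ∘ Sum.inl = w ∘ Sum.inl := by
      funext j; simp only [comp_apply]; rw [extend_apply']; simp
    simp [e1, e2]

lemma Mod.final (h : Mod t Y G) (hu : G univ) : ∃ n : ℕ, ∀ d, n ≤ d → ∀ T : Finset ℤ,
    T.card = t → Tiled T (univ : Set (Fin d → ℤ)) := by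
  obtain ⟨κ, _, _, π, h⟩ := h
  refine ⟨Fintype.card κ, fun d hd T hT => ?_⟩
  obtain ⟨e⟩ : Nonempty (κ ↪ Fin d) := Function.Embedding.nonempty_of_card_le (by simpa using hd)
  refine tiled_sec e e.injective fun w => ?_
  simpa using (h _).1 hu ⟨T, hT⟩

end Pool.Agent.H286Z.Tile
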