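import Pool.Agent.H286Z.Tile.Basic

set_option autoImplicit false

namespace Pool.Agent.H286Z.Tile
open Set Function

variable {t : ℕ}

lemma two_holes (n : ℕ) : ∀ (Y : Type) (G : Set Y → Prop) (l : List (Set Y)), Mod t Y G →
    l.length = n → (∀ D ∈ l, G Dᶜ) → (∀ y, ∃ D ∈ l, y ∉ D) →
    ∃ (Y' : Type) (G' : Set Y' → Prop) (A B : Set Y'), Mod t Y' G' ∧ G' Aᶜ ∧ G' Bᶜ ∧
      ∀ y, y ∈ A → y ∉ B := by
  induction n with
  | zero =>
    intro Y G l hM hl _ h2
    have : l = [] := List.length_eq_zero_iff.1 hl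
    subst this
    have hu : G ∅ᶜ := Mod.congr _ _ hM.empty (fun y => by obtain ⟨D, hD, _⟩ := h2 y; simp at hD)
    exact ⟨Y, G, ∅, ∅, hM, hu, hu, fun y hy => hy.elim⟩
  | succ n ih =>
    intro Y G l hM hl h1 h2
    match l, hl, h1, h2 with
    | [D], _, h1, h2 =>
      refine ⟨Y, G, D, D, hM, h1 D (by simp), h1 D (by simp), fun y hy => ?_⟩
      obtain ⟨D', hD', h⟩ := h2 y
      simp only [List.mem_singleton] at hD'
      subst hD'; exact h
    | [D, E], _, h1, h2 =>
      refine ⟨Y, G, D, E, hM, h1 D (by simp), h1 E (by simp), fun y hy hy' => ?_⟩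
      obtain ⟨D', hD', h⟩ := h2 y
      simp only [List.mem_cons, List.not_mem_nil, or_false] at hD'
      rcases hD' with rfl | rfl
      · exact h hy
      · exact h hy'
    | D1 :: Dk :: D2 :: r, hl, h1, h2 =>
      obtain ⟨H, hH, hs1, hs2⟩ := hM.prod hM
      have g1 := h1 D1 (by simp)
      have gk := h1 Dk (by simp)
      have g2 := h1 D2 (by simp)
      let P : Set Y := {y | y ∈ D1 ∧ y ∈ D2 ∧ ∀ D ∈ r, y ∈ D}
      let H1 : Set (Y × Y) := {p | ((p.2 ∈ P ∧ p.1 ∈ Dk) ∨ (p.2 ∉ P ∧ p.1 ∈ D1)) ∧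
        ¬ (p.1 ∈ D1 ∧ p.2 ∉ D1)}
      let H2 : Set (Y × Y) := {p | p.1 ∈ D2 ∧ ((p.1 ∈ Dk ∧ p.2 ∈ Dk) ∨ (p.1 ∉ Dk ∧ p.2 ∈ D2))}
      refine ih (Y × Y) H (H1 :: H2 :: r.map (fun D => D ×ˢ D)) hH (by simpa using hl) ?_ ?_
      · intro D hD
        simp only [List.mem_cons, List.mem_map] at hD
        rcases hD with rfl | rfl | ⟨D, hD, rfl⟩
        · refine hH.split {p | p.1 ∈ D1 ∧ p.2 ∉ D1} (hs2 _ fun y => ?_) (hs1 _ fun y => ?_)
          · by_cases hy : y ∈ D1
            · exact Mod.congr _ _ g1 (fun z => by simp only [H1, mem_ofPred_eq, mem_compl_iff]; tauto)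
            · exact Mod.congr _ _ hM.empty
                (fun z => by simp only [H1, mem_ofPred_eq, mem_compl_iff, mem_empty_iff_false]; tauto)
          · by_cases hy : y ∈ P
            · have := hy.1
              exact Mod.congr _ _ gk (fun z => by simp only [H1, mem_ofPred_eq, mem_compl_iff]; tauto)
            · exact Mod.congr _ _ g1 (fun z => by simp only [H1, mem_ofPred_eq, mem_compl_iff]; tauto)
        · refine hH.split {p | p.1 ∈ D2} (hs2 _ fun y => ?_) (hs1 _ fun y => ?_)
          · by_cases hy : y ∈ D2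
            · by_cases hy' : y ∈ Dk
              · exact Mod.congr _ _ gk
                  (fun z => by simp only [H2, mem_ofPred_eq, mem_compl_iff]; tauto)
              · exact Mod.congr _ _ g2
                  (fun z => by simp only [H2, mem_ofPred_eq, mem_compl_iff]; tauto)
            · exact Mod.congr _ _ hM.empty
                (fun z => by simp only [H2, mem_ofPred_eq, mem_compl_iff, mem_empty_iff_false]; tauto)
          · exact Mod.congr _ _ g2 (fun z => by simp only [H2, mem_ofPred_eq, mem_compl_iff]; tauto)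
        · have gD := h1 D (by simp [hD])
          refine hH.split {p | p.1 ∈ D} (hs2 _ fun y => ?_) (hs1 _ fun y => ?_)
          · by_cases hy : y ∈ D
            · exact Mod.congr _ _ gD (fun z => by simp [hy])
            · exact Mod.congr _ _ hM.empty (fun z => by simp [hy])
          · exact Mod.congr _ _ gD (fun z => by
              simp only [mem_ofPred_eq, mem_compl_iff, mem_prod]; tauto)
      · rintro ⟨x, y⟩
        by_contra hc
        push Not at hc
        have a1 : (x, y) ∈ H1 := hc _ (by simp)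
        have a2 : (x, y) ∈ H2 := hc _ (by simp)
        have a3 : ∀ D ∈ r, x ∈ D ∧ y ∈ D := fun D hD =>
          hc (D ×ˢ D) (by simp only [List.mem_cons, List.mem_map]; exact Or.inr (Or.inr ⟨D, hD, rfl⟩))
        have b : ∀ z, z ∈ D1 → z ∈ Dk → z ∈ D2 → (∀ D ∈ r, z ∈ D) → False := by
          intro z z1 zk z2 zr
          obtain ⟨D, hD, h⟩ := h2 z
          simp only [List.mem_cons] at hD
          rcases hD with rfl | rfl | rfl | hD
          · exact h z1
          · exact h zk
          · exact h z2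
          · exact h (zr D hD)
        have bx := b x
        have b' := b y
        have a4 : ∀ D ∈ r, x ∈ D := fun D hD => (a3 D hD).1
        have a5 : ∀ D ∈ r, y ∈ D := fun D hD => (a3 D hD).2
        simp only [H1, H2, P, mem_ofPred_eq] at a1 a2
        tauto

lemma three {Y : Type} {G : Set Y → Prop} (hM : Mod t Y G) (l : List (Set Y))
    (h1 : ∀ D ∈ l, G Dᶜ) (h2 : ∀ y, ∃ D ∈ l, y ∉ D) :
    ∃ G3 : Set (Fin 3) → Prop, Mod t (Fin 3) G3 ∧ G3 {s | s ≠ 0} ∧ G3 {s | s ≠ 2} := by
  classical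
  obtain ⟨Y', G', A, B, hM', hA, hB, hAB⟩ := two_holes _ Y G l hM rfl h1 h2
  refine ⟨_, hM'.map (fun y => if y ∈ A then (0 : Fin 3) else if y ∈ B then 2 else 1), ?_, ?_⟩
  · refine Mod.congr _ _ hA fun y => ?_
    by_cases ha : y ∈ A <;> by_cases hb : y ∈ B <;> simp [ha, hb]
  · refine Mod.congr _ _ hB fun y => ?_
    have := hAB y
    by_cases ha : y ∈ A <;> by_cases hb : y ∈ B <;> simp_all

lemma star_nat {G3 : Set (Fin 3) → Prop} (hM : Mod t (Fin 3) G3) (ha : G3 {s | s ≠ 0})
    (hb : G3 {s | s ≠ 2}) (N : ℕ) : ∃ (W : Type) (G : Set W → Prop) (o : W) (c : ℕ → W),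
      Mod t W G ∧ G {w | w ≠ o} ∧ (∀ i < N, c i ≠ o) ∧ (∀ i < N, ∀ j < N, c i = c j → i = j) ∧
      ∀ i < N, G {w | w = o ∨ w = c i} := by
  induction N with
  | zero => exact ⟨Fin 3, G3, 0, fun _ => 0, hM, ha, by simp, by simp, by simp⟩
  | succ N ih =>
    obtain ⟨W, G, o, c, hW, h0, h1, h2, h3⟩ := ih
    obtain ⟨H, hH, hs1, hs2⟩ := hW.prod hM
    refine ⟨W × Fin 3, H, (o, 0), fun i => if i = N then (o, 1) else (c i, 0), hH, ?_, ?_, ?_, ?_⟩
    · refine hH.split {p | p.1 = o} (hs2 _ fun y => ?_) (hs1 _ fun y => ?_)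
      · by_cases hy : y = o
        · exact Mod.congr _ _ ha (fun z => by simp [hy])
        · exact Mod.congr _ _ hM.empty (fun z => by simp [hy])
      · exact Mod.congr _ _ h0 (fun z => by
          simp only [mem_ofPred_eq, ne_eq, Prod.mk.injEq]; tauto)
    · intro i hi
      by_cases h : i = N
      · simp [h]
      · simp [h, h1 i (by omega)]
    · intro i hi j hj
      by_cases h : i = N <;> by_cases h' : j = N
      · intro _; omega
      · simp [h, h']
      · simp [h, h']
      · simp only [h, h', if_false, Prod.mk.injEq, and_true]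
        exact h2 i (by omega) j (by omega)
    · intro i hi
      by_cases h : i = N
      · refine hs2 _ fun y => ?_
        by_cases hy : y = o
        · exact Mod.congr _ _ hb (fun z => by fin_cases z <;> simp [hy, h])
        · exact Mod.congr _ _ hM.empty (fun z => by simp [hy, h])
      · refine hs1 _ fun y => ?_
        by_cases hy : y = 0
        · exact Mod.congr _ _ (h3 i (by omega)) (fun z => by simp [hy, h])
        · exact Mod.congr _ _ hW.empty (fun z => by simp [hy, h])

lemma star {G3 : Set (Fin 3) → Prop} (hM : Mod t (Fin 3) G3) (ha : G3 {s | s ≠ 0})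
    (hb : G3 {s | s ≠ 2}) (P : Type) [Fintype P] :
    ∃ (W : Type) (G : Set W → Prop) (o : W) (c : P → W),
      Mod t W G ∧ G {w | w ≠ o} ∧ (∀ i, c i ≠ o) ∧ Injective c ∧
      ∀ i, G {w | w = o ∨ w = c i} := by
  obtain ⟨W, G, o, c, hW, h0, h1, h2, h3⟩ := star_nat hM ha hb (Fintype.card P)
  let e := Fintype.equivFin P
  refine ⟨W, G, o, fun i => c (e i), hW, h0, fun i => h1 _ (e i).2, fun i j hij => ?_,
    fun i => h3 _ (e i).2⟩
  exact e.injective (Fin.ext (h2 _ (e i).2 _ (e j).2 hij))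

lemma system {G3 : Set (Fin 3) → Prop} (hM : Mod t (Fin 3) G3) (ha : G3 {s | s ≠ 0})
    (hb : G3 {s | s ≠ 2}) (P Q : Type) [Fintype P] [Fintype Q] :
    ∃ (Y : Type) (G : Set Y → Prop) (p : P → Y) (q : Q → Y), Mod t Y G ∧ Injective p ∧
      Injective q ∧ (∀ i j, p i ≠ q j) ∧ ∀ (I : Finset P) (J : Finset Q), I.card = J.card + 1 →
        G {y | (∀ i ∈ I, y ≠ p i) ∧ ∀ j ∈ J, y ≠ q j} := by
  classical
  obtain ⟨W, G, o, c, hW, h0, h1, h2, h3⟩ := star hM ha hb P
  obtain ⟨W', G', o', c', hW', h0', h1', h2', h3'⟩ := star hM ha hb Q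
  obtain ⟨H, hH, hs1, hs2⟩ := hW.prod hW'
  obtain ⟨K, hK, ht1, ht2⟩ := hM.prod hH
  refine ⟨Fin 3 × (W × W'), K, fun i => (1, c i, o'), fun j => (2, o, c' j), hK,
    fun i j h => h2 (by simpa using h), fun i j h => h2' (by simpa using h), by simp, ?_⟩
  intro I J hIJ
  obtain ⟨i0, hi0⟩ : I.Nonempty := Finset.card_pos.1 (by omega)
  have hc : J.card = (I.erase i0).card := by rw [Finset.card_erase_of_mem hi0]; omega
  let e := Finset.equivOfCardEq hc
  let φ : Q → P := fun j => if h : j ∈ J then (e ⟨j, h⟩).1 else i0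
  have φ1 : ∀ j ∈ J, φ j ∈ I ∧ φ j ≠ i0 := by
    intro j hj
    have := (e ⟨j, hj⟩).2
    simp only [φ, dif_pos hj]
    exact ⟨Finset.mem_of_mem_erase this, Finset.ne_of_mem_erase this⟩
  have φ2 : ∀ j ∈ J, ∀ j' ∈ J, φ j = φ j' → j = j' := by
    intro j hj j' hj' h
    simp only [φ, dif_pos hj, dif_pos hj'] at h
    exact congrArg Subtype.val (e.injective (Subtype.ext h))
  have φ3 : ∀ i ∈ I, i = i0 ∨ ∃ j ∈ J, φ j = i := by
    intro i hi
    by_cases h : i = i0
    · exact Or.inl h
    · right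
      obtain ⟨⟨j, hj⟩, hj'⟩ := e.surjective ⟨i, Finset.mem_erase.2 ⟨h, hi⟩⟩
      exact ⟨j, hj, by simp only [φ, dif_pos hj, hj']⟩
  let E : Set (W × W') := {w | (∃ i ∈ I, w = (c i, o')) ∨ (∃ j ∈ J, w = (o, c' j)) ∨
    ∃ j ∈ J, w = (c (φ j), c' j)}
  have hE : (o, o') ∉ E := by
    rintro (⟨i, _, h⟩ | ⟨j, _, h⟩ | ⟨j, _, h⟩)
    · exact h1 i (Prod.ext_iff.1 h).1.symm
    · exact h1' j (Prod.ext_iff.1 h).2.symm
    · exact h1' j (Prod.ext_iff.1 h).2.symm
  refine hK.split {y | (y.2 = (o, o') ∧ y.1 ≠ 2) ∨ (y.2 ≠ (o, o') ∧ y.2 ∉ E ∧ y.1 ≠ 0)}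
    (ht1 _ fun w => ?_) (ht2 _ fun s => ?_)
  · by_cases hw : w = (o, o')
    · refine Mod.congr _ _ hb fun z => ?_
      subst hw
      simp only [mem_ofPred_eq, ne_eq, Prod.mk.injEq, not_true, false_and, or_false, true_and,
        and_true, and_iff_right_iff_imp]
      intro hz
      exact ⟨fun i _ h => h1 i h.2.symm, fun j _ h => h1' j h.2.symm⟩
    · by_cases hw' : w ∈ E
      · exact Mod.congr _ _ hM.empty fun z => by simp [hw, hw']
      · refine Mod.congr _ _ ha fun z => ?_
        simp only [mem_ofPred_eq, hw, hw', ne_eq, false_and, false_or, not_false_eq_true, true_and,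
          and_iff_right_iff_imp, Prod.mk.injEq]
        intro _
        exact ⟨fun i hi h => hw' (Or.inl ⟨i, hi, h.2⟩),
          fun j hj h => hw' (Or.inr (Or.inl ⟨j, hj, h.2⟩))⟩
  · have hs : s = 0 ∨ s = 1 ∨ s = 2 := by fin_cases s <;> simp
    rcases hs with rfl | rfl | rfl
    · refine hH.split {w | w.1 = o} (hs2 _ fun y => ?_) (hs1 _ fun y => ?_)
      · by_cases hy : y = o
        · exact Mod.congr _ _ h0' (fun z => by simp [hy])
        · exact Mod.congr _ _ hW'.empty (fun z => by simp [hy])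
      · exact Mod.congr _ _ h0 (fun z => by simp; tauto)
    · refine hs1 _ fun y => ?_
      by_cases hy : ∃ j ∈ J, y = c' j
      · obtain ⟨j, hj, rfl⟩ := hy
        refine Mod.congr _ _ (h3 (φ j)) fun z => ?_
        simp only [mem_ofPred_eq]
        constructor
        · rintro ⟨_, h⟩
          by_contra h'
          apply h
          right
          refine ⟨fun h => h1' j (Prod.ext_iff.1 h).2, ?_, by simp⟩
          rintro (⟨_, _, h5⟩ | ⟨j', _, h5⟩ | ⟨j', _, h5⟩)
          · exact h1' j (Prod.ext_iff.1 h5).2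
          · exact h' (Or.inl (Prod.ext_iff.1 h5).1)
          · have : j = j' := h2' (Prod.ext_iff.1 h5).2
            subst this
            exact h' (Or.inr (Prod.ext_iff.1 h5).1)
        · intro h
          refine ⟨⟨fun i _ h5 => h1' j (congrArg (·.2.2) h5), by simp⟩, ?_⟩
          rintro (h' | ⟨_, h', _⟩)
          · exact h1' j (Prod.ext_iff.1 h'.1).2
          · apply h'
            rcases h with rfl | rfl
            · exact Or.inr (Or.inl ⟨j, hj, rfl⟩)
            · exact Or.inr (Or.inr ⟨j, hj, rfl⟩)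
      · refine Mod.congr _ _ hW.empty fun z => ?_
        simp only [mem_ofPred_eq, mem_empty_iff_false, iff_false, not_and, not_not]
        rintro ⟨h, _⟩
        by_cases h' : (z, y) = (o, o')
        · exact Or.inl ⟨h', by simp⟩
        · refine Or.inr ⟨h', ?_, by simp⟩
          rintro (⟨i, hi, h''⟩ | ⟨j, hj, h''⟩ | ⟨j, hj, h''⟩)
          · exact h i hi (by rw [h''])
          · exact hy ⟨j, hj, (Prod.ext_iff.1 h'').2⟩
          · exact hy ⟨j, hj, (Prod.ext_iff.1 h'').2⟩
    · refine hH.split {w | ∃ j ∈ J, w.1 = c (φ j)} (hs2 _ fun y => ?_) (hs1 _ fun y => ?_)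
      · by_cases hy : ∃ j ∈ J, y = c (φ j)
        · obtain ⟨j, hj, rfl⟩ := hy
          refine Mod.congr _ _ (h3' j) fun z => ?_
          simp only [mem_ofPred_eq]
          constructor
          · rintro ⟨⟨_, h⟩, _⟩
            by_contra h'
            apply h
            right
            refine ⟨fun h => h1 _ (Prod.ext_iff.1 h).1, ?_, by simp⟩
            rintro (⟨_, _, h5⟩ | ⟨j', _, h5⟩ | ⟨j', hj', h5⟩)
            · exact h' (Or.inl (Prod.ext_iff.1 h5).2)
            · exact h1 _ (Prod.ext_iff.1 h5).1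
            · have : j = j' := φ2 j hj j' hj' (h2 (Prod.ext_iff.1 h5).1)
              subst this
              exact h' (Or.inr (Prod.ext_iff.1 h5).2)
          · intro h
            refine ⟨⟨⟨by simp, fun j' _ h5 => h1 _ (congrArg (·.2.1) h5)⟩, ?_⟩, j, hj, rfl⟩
            rintro (h' | ⟨_, h', _⟩)
            · exact h'.2 rfl
            · apply h'
              rcases h with rfl | rfl
              · exact Or.inl ⟨φ j, (φ1 j hj).1, rfl⟩
              · exact Or.inr (Or.inr ⟨j, hj, rfl⟩)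
        · exact Mod.congr _ _ hW'.empty fun z => by
            simp only [mem_ofPred_eq, hy, and_false, mem_empty_iff_false]
      · by_cases hy : y = o'
        · subst hy
          refine Mod.congr _ _ (h3 i0) fun z => ?_
          simp only [mem_ofPred_eq]
          constructor
          · rintro ⟨⟨_, h⟩, h'⟩
            by_contra h''
            apply h
            right
            refine ⟨fun h => h'' (Or.inl (Prod.ext_iff.1 h).1), ?_, by simp⟩
            rintro (⟨i, hi, h5⟩ | ⟨j, _, h5⟩ | ⟨j, _, h5⟩)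
            · rcases φ3 i hi with rfl | ⟨j, hj, rfl⟩
              · exact h'' (Or.inr (Prod.ext_iff.1 h5).1)
              · exact h' ⟨j, hj, (Prod.ext_iff.1 h5).1⟩
            · exact h1' j (Prod.ext_iff.1 h5).2.symm
            · exact h1' j (Prod.ext_iff.1 h5).2.symm
          · intro h
            refine ⟨⟨⟨by simp, fun j _ h => h1' j (by simpa using congrArg (·.2.2) h.symm)⟩, ?_⟩, ?_⟩
            · rintro (h' | ⟨h', h'', _⟩)
              · exact h'.2 rfl
              · rcases h with rfl | rfl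
                · exact h' rfl
                · exact h'' (Or.inl ⟨i0, hi0, rfl⟩)
            · rintro ⟨j, hj, h'⟩
              rcases h with rfl | rfl
              · exact h1 _ h'.symm
              · exact (φ1 j hj).2 (h2 h').symm
        · refine Mod.congr _ _ hW.empty fun z => ?_
          simp only [mem_ofPred_eq, mem_empty_iff_false, iff_false, not_and, not_not]
          rintro ⟨⟨_, h⟩, h'⟩
          by_contra h''
          apply h'
          right
          refine ⟨fun h => hy (Prod.ext_iff.1 h).2, ?_, by simp⟩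
          rintro (⟨i, hi, h3⟩ | ⟨j, hj, h3⟩ | ⟨j, hj, h3⟩)
          · exact hy (Prod.ext_iff.1 h3).2
          · exact h j hj (by rw [h3])
          · exact h'' ⟨j, hj, (Prod.ext_iff.1 h3).1⟩

/-- A signed tiling of a model, together with a covering by good sets, gives a tiling. -/
lemma signed {Z : Type} {G : Set Z → Prop} (hM : Mod t Z G) {P Q : Type} [Fintype P] [Fintype Q]
    (V : P → Set Z) (U : Q → Set Z) (hV : ∀ i, G (V i)) (hU : ∀ j, G (U j))
    (h : ∀ z, ∃ (I : Finset P) (J : Finset Q), (∀ i, i ∈ I ↔ z ∈ V i) ∧ (∀ j, j ∈ J ↔ z ∈ U j) ∧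
      I.card = J.card + 1) :
    ∃ (Y : Type) (H : Set Y → Prop), Mod t Y H ∧ H univ := by
  obtain ⟨G3, h3, ha, hb⟩ := three hM ((Finset.univ : Finset P).toList.map fun i => (V i)ᶜ)
    (by
      intro D hD
      obtain ⟨i, _, rfl⟩ := List.mem_map.1 hD
      simpa using hV i)
    (by
      intro z
      obtain ⟨I, J, h1, _, h2⟩ := h z
      obtain ⟨i, hi⟩ : I.Nonempty := Finset.card_pos.1 (by omega)
      exact ⟨_, List.mem_map.2 ⟨i, by simp, rfl⟩, by simpa using (h1 i).1 hi⟩)
  obtain ⟨Y, H, p, q, hH, hp, hq, hpq, hs⟩ := system h3 ha hb P Q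
  obtain ⟨K, hK, ht1, ht2⟩ := hM.prod hH
  refine ⟨Z × Y, K, hK, hK.split {x | (∃ i, x.2 = p i ∧ x.1 ∈ V i) ∨ ∃ j, x.2 = q j ∧ x.1 ∈ U j}
    (ht1 _ fun y => ?_) (ht2 _ fun z => ?_)⟩
  · by_cases hy : ∃ i, y = p i
    · obtain ⟨i, rfl⟩ := hy
      exact Mod.congr _ _ (hV i) fun z => by simp [hp.eq_iff, hpq]
    · by_cases hy' : ∃ j, y = q j
      · obtain ⟨j, rfl⟩ := hy'
        exact Mod.congr _ _ (hU j) fun z => by simp [hq.eq_iff, (hpq _ _).symm]
      · push Not at hy hy'
        exact Mod.congr _ _ hM.empty fun z => by simp [hy, hy']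
  · obtain ⟨I, J, h1, h2, h4⟩ := h z
    refine Mod.congr _ _ (hs I J h4) fun y => ?_
    simp only [mem_ofPred_eq, mem_univ, true_and, h1, h2, not_or, not_exists, not_and, ne_eq]
    constructor
    · rintro ⟨a, b⟩
      exact ⟨fun i hi h => a i h hi, fun j hj h => b j h hj⟩
    · rintro ⟨a, b⟩
      exact ⟨fun i h hi => a i hi h, fun j h hj => b j hj h⟩

end Pool.Agent.H286Z.Tile
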