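import Pool.Agent.H286Z.Tile.Comb

set_option autoImplicit false

namespace Pool.Agent.H286Z.Tile
open Set Function

/-- forward recursion -/
def fwd (A : Finset ℕ) (n : ℕ) : ℤ :=
  1 - ∑ a ∈ A, if _h : 0 < a ∧ a ≤ n then fwd A (n - a) else 0
termination_by n
decreasing_by omega

lemma half (T : Finset ℤ) (hT : T.Nonempty) :
    ∃ m : ℤ → ℤ, ∀ x, ∑ a ∈ T, m (x - a) = if 0 ≤ x then 1 else 0 := by
  classical
  let μ := T.min' hT
  have hμ : μ ∈ T := T.min'_mem hT
  have hle : ∀ a ∈ T, μ ≤ a := fun a ha => T.min'_le a ha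
  let A : Finset ℕ := (T.erase μ).image fun a => (a - μ).toNat
  refine ⟨fun y => if 0 ≤ y + μ then fwd A (y + μ).toNat else 0, fun x => ?_⟩
  by_cases hx : 0 ≤ x
  · rw [if_pos hx, ← Finset.add_sum_erase T _ hμ]
    have e1 : x - μ + μ = x := by ring
    simp only [e1, if_pos hx]
    rw [fwd, Finset.sum_image]
    · have : ∀ a ∈ T.erase μ,
          (if h : 0 < (a - μ).toNat ∧ (a - μ).toNat ≤ x.toNat then fwd A (x.toNat - (a - μ).toNat)
            else 0) = if 0 ≤ x - a + μ then fwd A (x - a + μ).toNat else 0 := by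
        intro a ha
        have h1 := hle a (Finset.mem_of_mem_erase ha)
        have h2 := Finset.ne_of_mem_erase ha
        by_cases h : 0 ≤ x - a + μ
        · rw [if_pos h, dif_pos (by omega)]
          congr 1; omega
        · rw [if_neg h, dif_neg (by omega)]
      rw [Finset.sum_congr rfl this]; ring
    · intro a ha b hb h
      have h1 := hle a (Finset.mem_of_mem_erase ha)
      have h2 := hle b (Finset.mem_of_mem_erase hb)
      simp only at h
      omega
  · rw [if_neg hx]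
    refine Finset.sum_eq_zero fun a ha => ?_
    have := hle a ha
    exact if_neg (by omega)

lemma mult (T : Finset ℤ) (hT : T.Nonempty) :
    ∃ m : ℤ → ℕ, (∀ x, 0 < m x ∧ m x ≤ T.card) ∧
      ∀ x, ∃ k, ∑ a ∈ T, m (x - a) = 1 + T.card * k := by
  classical
  obtain ⟨m1, h1⟩ := half T hT
  obtain ⟨m2, h2⟩ := half (T.image Neg.neg) (hT.image _)
  have hc : 0 < T.card := Finset.card_pos.2 hT
  have h3 : ∀ x, ∑ a ∈ T, (m1 (x - a) + m2 (-1 - (x - a))) = 1 := by
    intro x
    rw [Finset.sum_add_distrib, h1]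
    have := h2 (-1 - x)
    rw [Finset.sum_image (fun a _ b _ h => neg_injective h)] at this
    have e : ∀ a ∈ T, m2 (-1 - (x - a)) = m2 (-1 - x - -a) := fun a _ => by congr 1; ring
    rw [Finset.sum_congr rfl e, this]
    split_ifs <;> omega
  let M : ℤ → ℤ := fun y => m1 y + m2 (-1 - y)
  have hpos : ∀ y, 0 ≤ (M y - 1) % (T.card : ℤ) := fun y => Int.emod_nonneg _ (by omega)
  have hlt : ∀ y, (M y - 1) % (T.card : ℤ) < T.card := fun y => Int.emod_lt_of_pos _ (by omega)
  refine ⟨fun y => ((M y - 1) % (T.card : ℤ)).toNat + 1, fun y => ⟨Nat.succ_pos _, ?_⟩, fun x => ?_⟩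
  · have := hpos y; have := hlt y; simp only; omega
  · have hd : (T.card : ℤ) ∣
        ((∑ a ∈ T, (((M (x - a) - 1) % (T.card : ℤ)).toNat + 1) : ℕ) : ℤ) - 1 := by
      have h4 : ∑ a ∈ T, M (x - a) = 1 := h3 x
      have h5 : ∀ s : ℤ, s - 1 = s - ∑ a ∈ T, M (x - a) := fun s => by rw [h4]
      push_cast
      rw [h5 (∑ a ∈ T, _), ← Finset.sum_sub_distrib]
      refine Finset.dvd_sum fun a _ => ?_
      rw [Int.toNat_of_nonneg (hpos _)]
      have := Int.emod_add_mul_ediv (M (x - a) - 1) T.card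
      exact ⟨-((M (x - a) - 1) / T.card), by linarith⟩
    have h1' : 1 ≤ ∑ a ∈ T, (((M (x - a) - 1) % (T.card : ℤ)).toNat + 1) := by
      obtain ⟨a, ha⟩ := hT
      exact le_trans (by omega) (Finset.single_le_sum
        (f := fun a => ((M (x - a) - 1) % (T.card : ℤ)).toNat + 1) (fun _ _ => Nat.zero_le _) ha)
    obtain ⟨k, hk⟩ := (Nat.modEq_iff_dvd' h1').1 ((Nat.modEq_iff_dvd).2 (by exact_mod_cast hd))
    exact ⟨k, by simp only; omega⟩

lemma colour (t : ℕ) (T : Finset ℤ) (hT : T.card = t) :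
    ∃ χ : ℤ → (Fin t × Fin t → ZMod 2), ∀ y, ∀ a ∈ T, ∀ b ∈ T, χ (y - a) = χ (y - b) → a = b := by
  let e := T.orderEmbOfFin hT
  have he : ∀ a ∈ T, ∃ i, e i = a := fun a ha => by
    have : a ∈ range e := by rw [Finset.range_orderEmbOfFin]; exact ha
    exact this
  refine ⟨fun x p => ((x / (e p.1 - e p.2) : ℤ) : ZMod 2), fun y a ha b hb h => ?_⟩
  obtain ⟨i, rfl⟩ := he a ha
  obtain ⟨j, rfl⟩ := he b hb
  by_contra hne
  have h1 := congrFun h (i, j)
  have e1 : y - e j = y - e i + 1 * (e i - e j) := by ring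
  simp only at h1
  rw [e1, Int.add_mul_ediv_right _ _ (sub_ne_zero.2 hne)] at h1
  push_cast at h1
  exact one_ne_zero (left_eq_add.1 h1)

lemma tiled_pack (T : Finset ℤ) (B : Set ℤ)
    (hB : ∀ y, ∀ a ∈ T, ∀ b ∈ T, y - a ∈ B → y - b ∈ B → a = b) :
    Tiled T {x : Unit → ℤ | ∃ a ∈ T, x () - a ∈ B} := by
  classical
  let f : (Unit → ℤ) → ℤ := fun x => if h : ∃ a ∈ T, x () - a ∈ B then h.choose else 0
  have hf : ∀ x : Unit → ℤ, ∀ a ∈ T, x () - a ∈ B → f x = a := by
    intro x a ha h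
    have h' : ∃ a ∈ T, x () - a ∈ B := ⟨a, ha, h⟩
    simp only [f, dif_pos h']
    exact hB _ _ h'.choose_spec.1 _ ha h'.choose_spec.2 h
  refine ⟨fun x => Copy T (fun _ => x () - f x) (), ?_⟩
  rintro x ⟨a, ha, h⟩
  refine ⟨⟨_, _, rfl⟩, ⟨a, ha, ?_⟩, ?_, ?_⟩
  · funext u; simp [hf x a ha h]
  · rintro _ ⟨b, hb, rfl⟩
    exact ⟨b, hb, by simpa [hf x a ha h] using h⟩
  · rintro _ ⟨b, hb, rfl⟩
    have := hf ((fun _ => x () - f x) + b • Pi.single () 1) b hb (by simpa [hf x a ha h] using h)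
    simp only [this]
    simp

/-- the universal ground set -/
def Un (t : ℕ) : Type := {w : (Fin t × Fin t → ZMod 2) → ℕ //
  (Finset.univ.filter fun c => 0 < w c).card = t ∧
  ∃ a, (Finset.univ.filter fun ck : (Fin t × Fin t → ZMod 2) × Fin t => ck.2.1 < w ck.1).card
    = 1 + t * a}

lemma base (t : ℕ) (ht : 0 < t) : ∃ G : Set (Un t) → Prop, Mod t (Un t) G ∧
    ∀ c k, G {w | k < w.1 c} := by
  classical
  have key : ∀ T : {T : Finset ℤ // T.card = t}, ∃ π : (Unit → ℤ) → Un t,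
      ∀ c k, Tiled T.1 (π ⁻¹' {w | k < w.1 c}) := by
    rintro ⟨T, hT⟩
    obtain ⟨m, hm1, hm2⟩ := mult T (Finset.card_pos.1 (by omega))
    obtain ⟨χ, hχ⟩ := colour t T hT
    let w : ℤ → (Fin t × Fin t → ZMod 2) → ℕ :=
      fun y c => ∑ a ∈ T with χ (y - a) = c, m (y - a)
    have w1 : ∀ y, ∀ a ∈ T, w y (χ (y - a)) = m (y - a) := by
      intro y a ha
      refine Finset.sum_eq_single_of_mem a (by simp [ha]) fun b hb hne => ?_
      rw [Finset.mem_filter] at hb
      exact (hne (hχ y b hb.1 a ha hb.2)).elim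
    have w2 : ∀ y c k, k < w y c ↔ ∃ a ∈ T, χ (y - a) = c ∧ k < m (y - a) := by
      intro y c k
      constructor
      · intro h
        by_cases h' : ∃ a ∈ T, χ (y - a) = c
        · obtain ⟨a, ha, rfl⟩ := h'
          exact ⟨a, ha, rfl, by rwa [w1 y a ha] at h⟩
        · have : w y c = 0 := Finset.sum_eq_zero fun b hb => by
            rw [Finset.mem_filter] at hb
            exact (h' ⟨b, hb.1, hb.2⟩).elim
          omega
      · rintro ⟨a, ha, rfl, h⟩
        rwa [w1 y a ha]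
    have w3 : ∀ y c, w y c ≤ t := by
      intro y c
      by_contra h
      obtain ⟨a, _, _, h'⟩ := (w2 y c t).1 (by omega)
      have := (hm1 (y - a)).2
      omega
    refine ⟨fun x => ⟨w (x ()), ?_, ?_⟩, fun c k => ?_⟩
    · have : (Finset.univ.filter fun c => 0 < w (x ()) c) = T.image fun a => χ (x () - a) := by
        ext c
        simp only [Finset.mem_filter, Finset.mem_univ, true_and, w2, Finset.mem_image]
        exact ⟨fun ⟨a, h1, h2, _⟩ => ⟨a, h1, h2⟩, fun ⟨a, h1, h2⟩ => ⟨a, h1, h2, (hm1 _).1⟩⟩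
      rw [this, Finset.card_image_of_injOn (fun a ha b hb h => hχ _ a ha b hb h), hT]
    · obtain ⟨k, hk⟩ := hm2 (x ())
      refine ⟨k, ?_⟩
      rw [hT] at hk
      rw [← hk, Finset.card_filter, Fintype.sum_prod_type,
        ← Finset.sum_fiberwise T (fun a => χ (x () - a))]
      refine Finset.sum_congr rfl fun c _ => ?_
      rw [← Finset.card_filter]
      exact Fin.card_filter_val_lt.trans (min_eq_right (w3 _ c))
    · have := tiled_pack T {b | χ b = c ∧ k < m b}
        (fun y a ha b hb h1 h2 => hχ y a ha b hb (h1.1.trans h2.1.symm))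
      convert this using 1
      ext x
      exact w2 _ _ _
  choose π hπ using key
  exact ⟨fun X => ∀ T, Tiled T.1 (π T ⁻¹' X),
    ⟨Unit, inferInstance, inferInstance, π, fun _ => Iff.rfl⟩, fun c k T => hπ T c k⟩

lemma main_card (t : ℕ) (ht : 0 < t) : ∃ n : ℕ, ∀ d, n ≤ d → ∀ T : Finset ℤ,
    T.card = t → Tiled T (univ : Set (Fin d → ℤ)) := by
  classical
  obtain ⟨G, hG, hg⟩ := base t ht
  obtain ⟨H, hH, hs1, hs2⟩ := hG.prod hG
  let a : Un t → ℕ := fun w => w.2.2.choose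
  let K := Fintype.card ((Fin t × Fin t → ZMod 2) × Fin t)
  have ha : ∀ w : Un t, (Finset.univ.filter
      fun ck : (Fin t × Fin t → ZMod 2) × Fin t => ck.2.1 < w.1 ck.1).card = 1 + t * a w :=
    fun w => w.2.2.choose_spec
  have haK : ∀ w, a w ≤ K := by
    intro w
    have h1 := Finset.card_le_univ (Finset.univ.filter
      fun ck : (Fin t × Fin t → ZMod 2) × Fin t => ck.2.1 < w.1 ck.1)
    rw [ha] at h1
    have : a w ≤ t * a w := Nat.le_mul_of_pos_left _ ht
    omega
  obtain ⟨Y, L, hL, hu⟩ := signed hH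
    (fun ck : (Fin t × Fin t → ZMod 2) × Fin t => {z | ck.2.1 < z.1.1 ck.1})
    (fun kc : Fin K × (Fin t × Fin t → ZMod 2) => {z | kc.1.1 < a z.1 ∧ 0 < z.2.1 kc.2})
    (fun ck => hs1 _ fun _ => hg _ _)
    (fun kc => hs2 _ fun y => by
      by_cases h : kc.1.1 < a y
      · exact Mod.congr _ _ (hg kc.2 0) fun z => by simp [h]
      · exact Mod.congr _ _ hG.empty fun z => by simp [h])
    (fun z => ⟨Finset.univ.filter fun ck => ck.2.1 < z.1.1 ck.1,
      (Finset.univ.filter fun k : Fin K => k.1 < a z.1) ×ˢ (Finset.univ.filter fun c => 0 < z.2.1 c),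
      by simp, by simp, by
        rw [ha, Finset.card_product, z.2.2.1, Fin.card_filter_val_lt, min_eq_right (haK _)]
        ring⟩)
  exact hL.final hu

lemma main (t : ℕ) : ∃ d : ℕ, ∀ T : Finset ℤ, T.Nonempty → T.card ≤ t →
    Tiled T (univ : Set (Fin d → ℤ)) := by
  choose n hn using fun s : ℕ => main_card (s + 1) (Nat.succ_pos s)
  refine ⟨(Finset.range t).sup n, fun T hT ht => ?_⟩
  have := Finset.card_pos.2 hT
  exact hn (T.card - 1) _ (Finset.le_sup (Finset.mem_range.2 (by omega))) T (by omega)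

end Pool.Agent.H286Z.Tile
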